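import Pool.Agent.W206.DML.Conv

/-!
# The Dynamical Mordell-Lang conjecture reduces to squaring the coordinates and applying an
integral matrix

The Dynamical Mordell-Lang conjecture (for all quasiprojective complex varieties, all their
endomorphisms, all points and all closed subvarieties) is equivalent to its special case in which
the variety is an affine space `ℂ^m`, the endomorphism is `x ↦ A (x_1², ..., x_m²)` for a matrix
`A` with integral entries, and the subvariety is a coordinate hyperplane. It is also equivalent to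
the special case of the self-maps of `ℂ^m` all of whose coordinates are of the form `x_j + x_k` or
`x_j x_k`, and coordinate hyperplanes.

The first step is Jouanolou's trick: over a quasiprojective variety `X` there is an affine bundle
`W` with `W` affine; torsors under vector bundles over affine varieties are trivial, so every
endomorphism of `X` lifts to `W` and then extends to an affine space. The second step simulates a
polynomial map by a pipeline of additions and multiplications.
-/

set_option autoImplicit false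

namespace Pool.Agent.Results.MP_295d38_ag.SquaringNormalForm

open Pool.Agent.W206.DML

theorem result : List.TFAE [
    -- the Dynamical Mordell-Lang conjecture
    (∀ (N : ℕ) (X : Set (Projectivization ℂ (Fin (N + 1) → ℂ))),
      (∃ A B : Set (MvPolynomial (Fin (N + 1)) ℂ),
        (∀ F ∈ A, ∃ d : ℕ, F.IsHomogeneous d) ∧ (∀ F ∈ B, ∃ d : ℕ, F.IsHomogeneous d) ∧
        ∀ p : Projectivization ℂ (Fin (N + 1) → ℂ), p ∈ X ↔
          ((∀ F ∈ A, MvPolynomial.eval p.rep F = 0) ∧ ∃ F ∈ B, MvPolynomial.eval p.rep F ≠ 0)) →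
      ∀ Φ : Projectivization ℂ (Fin (N + 1) → ℂ) → Projectivization ℂ (Fin (N + 1) → ℂ),
        (∀ x ∈ X, Φ x ∈ X) →
        (∀ x ∈ X, ∃ (d e : ℕ) (F : Fin (N + 1) → MvPolynomial (Fin (N + 1)) ℂ)
            (g : MvPolynomial (Fin (N + 1)) ℂ),
            (∀ i, (F i).IsHomogeneous d) ∧ g.IsHomogeneous e ∧ MvPolynomial.eval x.rep g ≠ 0 ∧
            ∀ y ∈ X, MvPolynomial.eval y.rep g ≠ 0 →
              (fun i : Fin (N + 1) => MvPolynomial.eval y.rep (F i)) ≠ 0 ∧
              (fun i : Fin (N + 1) => MvPolynomial.eval y.rep (F i)) ∈ (Φ y).submodule) →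
        ∀ α ∈ X, ∀ V : Set (Projectivization ℂ (Fin (N + 1) → ℂ)),
          (∃ C : Set (MvPolynomial (Fin (N + 1)) ℂ),
            (∀ F ∈ C, ∃ d : ℕ, F.IsHomogeneous d) ∧
            ∀ p : Projectivization ℂ (Fin (N + 1) → ℂ),
              p ∈ V ↔ ∀ F ∈ C, MvPolynomial.eval p.rep F = 0) →
          ∃ T : Finset (ℕ × ℕ),
            {n : ℕ | Φ^[n] α ∈ V} = {n : ℕ | ∃ t ∈ T, ∃ k : ℕ, n = t.1 + t.2 * k}),
    -- squaring of the coordinates followed by an integral matrix, coordinate hyperplanes
    (∀ (m : ℕ) (A : Fin m → Fin m → ℤ) (a : Fin m → ℂ) (i : Fin m),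
      ∃ T : Finset (ℕ × ℕ),
        {n : ℕ | ((fun (x : Fin m → ℂ) (k : Fin m) => ∑ j, (A k j : ℂ) * x j ^ 2)^[n] a) i = 0} =
          {n : ℕ | ∃ t ∈ T, ∃ k : ℕ, n = t.1 + t.2 * k}),
    -- maps whose coordinates are sums or products of two coordinates, coordinate hyperplanes
    (∀ (m : ℕ) (op : Fin m → Bool) (u v : Fin m → Fin m) (a : Fin m → ℂ) (i : Fin m),
      ∃ T : Finset (ℕ × ℕ),
        {n : ℕ | ((fun (x : Fin m → ℂ) (j : Fin m) =>
          if op j then x (u j) + x (v j) else x (u j) * x (v j))^[n] a) i = 0} =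
            {n : ℕ | ∃ t ∈ T, ∃ k : ℕ, n = t.1 + t.2 * k})] := by
  tfae_have 1 → 2 := fun H _ A a i => sq_of_dml H A a i
  tfae_have 2 → 3 := fun H m op u v a i => step_of_sq H m op u v a i
  tfae_have 3 → 1 := by
    rintro H N X ⟨A, B, hA, hB, hX⟩ Φ hΦX hΦ α hα V ⟨C, hC, hV⟩
    exact dml_of_normal_form H N X A B hA hB hX Φ hΦX hΦ α hα V C hC hV
  tfae_finish

end Pool.Agent.Results.MP_295d38_ag.SquaringNormalForm
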